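import Pool.Agent.RFT81.Num
import Pool.Agent.RFT81.Fin
import Pool.Agent.RFT81.Exist

/-!
# Monotonicity of the probability of linear degree in the random friend tree

The structure `IsRFT μ V W` says that the pairs `(V n, W n)`, `n ≥ 2`, are the choices of the random
friend tree: given `T_n`, the vertex `V n` is uniform in `{1, ..., n}`, the vertex `W n` is uniform
among the neighbours of `V n` in `T_n`, and `n + 1` is attached to `W n`.  `Z W v` is the lower limit
of the degree of `v` in `T_n` divided by `n`.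

The theorem: the random friend tree exists, and for every random friend tree and all `1 ≤ u < v` we
have `P (Z_v > 0) ≤ P (Z_u > 0)`.
-/

namespace Pool.Agent.Results.MP_bc021e_pr.FriendTreeMonotone

open MeasureTheory Pool.Agent.RFT81

theorem result :
    (∃ (μ : Measure (ℕ → ℕ × ℕ)) (V W : ℕ → (ℕ → ℕ × ℕ) → ℕ),
      IsProbabilityMeasure μ ∧ IsRFT μ V W) ∧
    ∀ (Ω : Type*) [MeasurableSpace Ω] (μ : Measure Ω) [IsProbabilityMeasure μ]
      (V W : ℕ → Ω → ℕ), IsRFT μ V W → ∀ u v : ℕ, 1 ≤ u → u < v →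
        μ {ω | 0 < Z W v ω} ≤ μ {ω | 0 < Z W u ω} := by
  refine ⟨⟨law, _, _, inferInstance, isRFT_law⟩, ?_⟩
  intro Ω _ μ _ V W hVW u v hu huv
  have hW := wlaw hVW
  have hC := allC_R
  have h1 : ∀ v, u ≤ v → μ.real (Z0 W u) ≤ μ.real (Z0 W v) := by
    intro v hv
    induction v, hv using Nat.le_induction with
    | base => exact le_rfl
    | succ v hv ih => exact ih.trans (mono_succ hW hC (hu.trans hv))
  have h2 := h1 v huv.le
  have hc : ∀ v, {ω | 0 < Z W v ω} = (Z0 W v)ᶜ := by
    intro v
    ext ω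
    simp [Z0]
  rw [hc, hc, prob_compl_eq_one_sub (Z0_meas hW.meas v), prob_compl_eq_one_sub (Z0_meas hW.meas u)]
  refine tsub_le_tsub_left ?_ 1
  rw [measureReal_def, measureReal_def] at h2
  exact (ENNReal.toReal_le_toReal (measure_ne_top _ _) (measure_ne_top _ _)).1 h2

end Pool.Agent.Results.MP_bc021e_pr.FriendTreeMonotone
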